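import Pool.Agent.helper23.CO.Spec

open Finset Filter Topology

namespace CO

theorem BEN : BEN_stmt := by
  intro p q c hp hp1 hc hc2 hcq hqc hpq
  have hq0 : 0 < q := lt_of_lt_of_le hc hcq
  have hq1 : 0 < 1 - q := by linarith
  have h1 := Real.log_le_sub_one_of_pos (div_pos hp hq0)
  have h2 := Real.log_le_sub_one_of_pos (div_pos (by linarith : 0 < 1 - p) hq1)
  have h3 : p * Real.log (p / q) + (1 - p) * Real.log ((1 - p) / (1 - q)) ≤
      p * (p / q - 1) + (1 - p) * ((1 - p) / (1 - q) - 1) :=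
    add_le_add (mul_le_mul_of_nonneg_left h1 hp.le) (mul_le_mul_of_nonneg_left h2 (by linarith))
  refine h3.trans ?_
  have h4 : p * (p / q - 1) + (1 - p) * ((1 - p) / (1 - q) - 1) = (q - p) ^ 2 / (q * (1 - q)) := by
    field_simp
    ring
  rw [h4]
  have h5 : c / 2 ≤ q * (1 - q) := by nlinarith [mul_nonneg (by linarith : 0 ≤ q - c) (by linarith : 0 ≤ 1 - q - c)]
  have h6 : (q - p) ^ 2 ≤ q - p := by nlinarith
  calc (q - p) ^ 2 / (q * (1 - q)) ≤ (q - p) / (c / 2) :=
        div_le_div₀ (by linarith) h6 (by linarith) h5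
    _ = 2 / c * (q - p) := by field_simp

end CO
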