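import Pool.Agent.helper23.CO.Spec

open Finset Filter Topology

namespace CO

section
variable {V : Type} [Fintype V] [DecidableEq V]

theorem ENT_lin (hCAB : CAB_stmt) (w : (V → Bool) → ℝ) (hw : ∀ σ, 0 < w σ) (f g : (V → Bool) → ℝ) (a b : ℝ) :
    aw w (fun η => a * f η + b * g η) = a * aw w f + b * aw w g := by
  have h := hCAB V w hw ∅
  have h1 := h.2.1 f g a b (fun _ => true)
  simp only [h.2.2.2.2.1] at h1
  exact h1

theorem ENT_mono (hCAB : CAB_stmt) (w : (V → Bool) → ℝ) (hw : ∀ σ, 0 < w σ) (f g : (V → Bool) → ℝ) (hfg : ∀ η, f η ≤ g η) :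
    aw w f ≤ aw w g := by
  have h := hCAB V w hw ∅
  have h1 := h.1 f g (fun _ => true) (fun _ => true) hfg (fun x hx => rfl)
  simp only [h.2.2.2.2.1] at h1
  exact h1

theorem ENT_const (hCAB : CAB_stmt) (w : (V → Bool) → ℝ) (hw : ∀ σ, 0 < w σ) (c : ℝ) : aw w (fun _ => c) = c := by
  have h := hCAB V w hw ∅
  have h1 := h.2.2.1 c (fun _ => true)
  simp only [h.2.2.2.2.1] at h1
  exact h1

theorem ENT_dep (hCAB : CAB_stmt) (w : (V → Bool) → ℝ) (hw : ∀ σ, 0 < w σ) (A : Finset V) (f : (V → Bool) → ℝ)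
    (σ τ : V → Bool) (h : ∀ x ∈ A, σ x = τ x) : ca w A f σ = ca w A f τ := by
  have h1 := (hCAB V w hw A).1 f f σ τ (fun _ => le_rfl) h
  have h2 := (hCAB V w hw A).1 f f τ σ (fun _ => le_rfl) (fun x hx => (h x hx).symm)
  exact le_antisymm h1 h2

theorem ENT_neg (hCAB : CAB_stmt) (w : (V → Bool) → ℝ) (hw : ∀ σ, 0 < w σ) (A : Finset V) (x : V) (σ : V → Bool) :
    ca w A (fun η => if η x = false then 1 else 0) σ = 1 - ca w A (fun η => if η x = true then 1 else 0) σ := by
  have h := hCAB V w hw A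
  have h1 := h.2.1 (fun _ => 1) (fun η => if η x = true then 1 else 0) 1 (-1) σ
  have h2 := h.2.2.1 1 σ
  rw [h2] at h1
  have h3 : (fun η : V → Bool => if η x = false then (1 : ℝ) else 0) =
      fun η => 1 * 1 + (-1) * (if η x = true then 1 else 0) := by
    funext η
    cases η x <;> simp
  rw [h3, h1]
  ring

theorem ENT_p (hCAB : CAB_stmt) (w : (V → Bool) → ℝ) (hw : ∀ σ, 0 < w σ) (A : Finset V) (x : V) (hx : x ∉ A) (σ : V → Bool) :
    0 < ca w A (fun η => if η x = true then 1 else 0) σ ∧ ca w A (fun η => if η x = true then 1 else 0) σ < 1 := by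
  have key : ∀ b : Bool, 0 < ca w A (fun η => if η x = b then 1 else 0) σ := by
    intro b
    have h := hCAB V w hw A
    have h' := hCAB V w hw (insert x A)
    have e := h.2.2.2.2.2.2 x (Function.update σ x b) hx
    have hdep : ca w A (fun η => if η x = b then 1 else 0) σ =
        ca w A (fun η => if η x = b then 1 else 0) (Function.update σ x b) := by
      apply ENT_dep hCAB w hw
      intro y hy
      rw [Function.update_of_ne]
      rintro rfl
      exact hx hy
    rw [Function.update_self] at e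
    rw [hdep]
    have p1 := (h'.2.2.2.2.2.1 (Function.update σ x b)).1
    have p2 := (h.2.2.2.2.2.1 (Function.update σ x b)).1
    rw [e] at p1
    exact (pos_iff_pos_of_mul_pos p1).1 p2
  refine ⟨key true, ?_⟩
  have h := key false
  rw [ENT_neg hCAB w hw] at h
  linarith

theorem ENT_sg (hCAB : CAB_stmt) (w : (V → Bool) → ℝ) (hw : ∀ σ, 0 < w σ) (x : V) :
    aw w (fun η => if η x = true then 1 else 0) = (1 + aw w fun σ => CU.sg (σ x)) / 2 := by
  have h := ENT_lin hCAB w hw (fun _ => 1) (fun σ => CU.sg (σ x)) (1 / 2) (1 / 2)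
  rw [ENT_const hCAB w hw] at h
  have h3 : (fun η : V → Bool => if η x = true then (1 : ℝ) else 0) =
      fun η => 1 / 2 * 1 + 1 / 2 * CU.sg (η x) := by
    funext η
    unfold CU.sg
    cases η x <;> norm_num
  rw [h3, h]
  ring

theorem ENT_ex (hCAB : CAB_stmt) (w : (V → Bool) → ℝ) (hw : ∀ σ, 0 < w σ) (A : Finset V) (f : (V → Bool) → ℝ) :
    aw w (fun σ => ca w A f σ) = aw w f := by
  have h := (hCAB V w hw A).2.2.2.1 f (fun _ => 1) (fun _ _ _ => rfl)
  simpa only [mul_one] using h

end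

theorem ENT (hCAB : CAB_stmt) (hSTO : STO_stmt) (hBEN : BEN_stmt) : ENT_stmt := by
  intro V _ _ P Q c hPQ hQQ hc hc2 hb A
  have hP := hPQ.1
  have hQ := hPQ.2.1
  induction A using Finset.induction_on with
  | empty =>
    rw [Finset.sum_empty, mul_zero]
    have h1 : ∀ σ : V → Bool, Real.log (dn P Q ∅ σ) = 0 := by
      intro σ
      have hm : ∀ w : (V → Bool) → ℝ, (∀ σ, 0 < w σ) → ma w ∅ σ = 1 := by
        intro w hw
        unfold ma fb
        simp only [Finset.notMem_empty, false_imp_iff, imp_true_iff, Finset.filter_true]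
        exact div_self (Finset.sum_pos (fun η _ => hw η) ⟨fun _ => true, Finset.mem_univ _⟩).ne'
      unfold dn
      rw [hm P hP, hm Q hQ, div_one, Real.log_one]
    simp only [h1]
    rw [ENT_const hCAB P hP]
  | insert x A hx ih =>
    set p := fun σ => ca P A (fun η => if η x = true then 1 else 0) σ with hp
    set q := fun σ => ca Q A (fun η => if η x = true then 1 else 0) σ with hq
    have hp01 : ∀ σ, 0 < p σ ∧ p σ < 1 := fun σ => ENT_p hCAB P hP A x hx σ
    have hq01 : ∀ σ, c ≤ q σ ∧ q σ ≤ 1 - c := fun σ => hb A x σ hx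
    have hfm : Monotone (fun η : V → Bool => if η x = true then (1 : ℝ) else 0) := by
      intro a b hab
      have := hab x
      dsimp only
      by_cases h1 : a x = true
      · have h2 : b x = true := by
          rw [h1] at this
          exact top_le_iff.1 this
        rw [if_pos h1, if_pos h2]
      · rw [if_neg h1]
        split_ifs <;> norm_num
    have hpq : ∀ σ, p σ ≤ q σ := fun σ => hSTO V P Q hPQ A _ hfm σ σ le_rfl
    have hdn : ∀ σ, Real.log (dn P Q (insert x A) σ) = Real.log (dn P Q A σ) +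
        ((if σ x = true then 1 else 0) * (Real.log (p σ / q σ) - Real.log ((1 - p σ) / (1 - q σ))) +
          Real.log ((1 - p σ) / (1 - q σ))) := by
      intro σ
      have e1 := (hCAB V P hP A).2.2.2.2.2.2 x σ hx
      have e2 := (hCAB V Q hQ A).2.2.2.2.2.2 x σ hx
      have m1 := ((hCAB V P hP A).2.2.2.2.2.1 σ).1
      have m2 := ((hCAB V Q hQ A).2.2.2.2.2.1 σ).1
      have hpp := hp01 σ
      have hqq := hq01 σ
      unfold dn
      rw [e1, e2, mul_div_mul_comm]
      cases hσ : σ x
      · rw [ENT_neg hCAB P hP, ENT_neg hCAB Q hQ]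
        rw [Real.log_mul (div_pos m1 m2).ne' (div_pos (by simp only [hp] at hpp; linarith) (by simp only [hq] at hqq; linarith)).ne']
        simp [hp, hq]
      · rw [Real.log_mul (div_pos m1 m2).ne' (div_pos (by simp only [hp] at hpp; linarith) (by simp only [hq] at hqq; linarith)).ne']
        simp [hp, hq]
    have hdepp : ∀ σ τ : V → Bool, (∀ y ∈ A, σ y = τ y) → p σ = p τ := fun σ τ h => ENT_dep hCAB P hP A _ σ τ h
    have hdepq : ∀ σ τ : V → Bool, (∀ y ∈ A, σ y = τ y) → q σ = q τ := fun σ τ h => ENT_dep hCAB Q hQ A _ σ τ h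
    have hlin : aw P (fun σ => Real.log (dn P Q (insert x A) σ)) = aw P (fun σ => Real.log (dn P Q A σ)) +
        aw P (fun σ => (if σ x = true then 1 else 0) * (Real.log (p σ / q σ) - Real.log ((1 - p σ) / (1 - q σ))) +
          Real.log ((1 - p σ) / (1 - q σ))) := by
      simp only [hdn]
      have := ENT_lin hCAB P hP (fun σ => Real.log (dn P Q A σ)) (fun σ => (if σ x = true then 1 else 0) * (Real.log (p σ / q σ) - Real.log ((1 - p σ) / (1 - q σ))) +
          Real.log ((1 - p σ) / (1 - q σ))) 1 1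
      simpa only [one_mul] using this
    have htow : aw P (fun σ => (if σ x = true then 1 else 0) * (Real.log (p σ / q σ) - Real.log ((1 - p σ) / (1 - q σ)))) =
        aw P (fun σ => p σ * (Real.log (p σ / q σ) - Real.log ((1 - p σ) / (1 - q σ)))) := by
      refine ((hCAB V P hP A).2.2.2.1 (fun η => if η x = true then 1 else 0)
        (fun σ => Real.log (p σ / q σ) - Real.log ((1 - p σ) / (1 - q σ))) ?_).symm
      intro σ τ h
      rw [hdepp σ τ h, hdepq σ τ h]
    have hb1 : aw P (fun σ => (if σ x = true then 1 else 0) * (Real.log (p σ / q σ) - Real.log ((1 - p σ) / (1 - q σ))) +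
          Real.log ((1 - p σ) / (1 - q σ))) ≤ aw P (fun σ => 2 / c * q σ + (-(2 / c)) * p σ) := by
      have l1 := ENT_lin hCAB P hP (fun σ => (if σ x = true then 1 else 0) * (Real.log (p σ / q σ) - Real.log ((1 - p σ) / (1 - q σ))))
        (fun σ => Real.log ((1 - p σ) / (1 - q σ))) 1 1
      have l2 := ENT_lin hCAB P hP (fun σ => p σ * (Real.log (p σ / q σ) - Real.log ((1 - p σ) / (1 - q σ))))
        (fun σ => Real.log ((1 - p σ) / (1 - q σ))) 1 1
      simp only [one_mul] at l1 l2
      rw [l1, htow, ← l2]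
      apply ENT_mono hCAB P hP
      intro σ
      have hB := hBEN (p σ) (q σ) c (hp01 σ).1 (hp01 σ).2 hc hc2 (hq01 σ).1 (hq01 σ).2 (hpq σ)
      linarith
    have hb2 := ENT_lin hCAB P hP q p (2 / c) (-(2 / c))
    have hp1 : aw P p = (1 + aw P fun σ => CU.sg (σ x)) / 2 := by
      rw [← ENT_sg hCAB P hP]
      exact ENT_ex hCAB P hP A _
    have hq1 : aw Q q = (1 + aw Q fun σ => CU.sg (σ x)) / 2 := by
      rw [← ENT_sg hCAB Q hQ]
      exact ENT_ex hCAB Q hQ A _
    have hqm : Monotone q := fun σ τ h => hSTO V Q Q hQQ A _ hfm σ τ h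
    have hq2 : aw P q ≤ aw Q q := by
      have h := hSTO V P Q hPQ ∅ q hqm (fun _ => true) (fun _ => true) le_rfl
      rw [(hCAB V P hP ∅).2.2.2.2.1, (hCAB V Q hQ ∅).2.2.2.2.1] at h
      exact h
    rw [Finset.sum_insert hx, hlin]
    have hc' : 0 ≤ 2 / c := by positivity
    have hm : 2 / c * aw P q ≤ 2 / c * aw Q q := mul_le_mul_of_nonneg_left hq2 hc'
    have hfin : 2 / c * aw Q q + -(2 / c) * aw P p = 1 / c * ((aw Q fun σ => CU.sg (σ x)) - aw P fun σ => CU.sg (σ x)) := by
      rw [hp1, hq1]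
      field_simp
      ring
    rw [mul_add]
    linarith

end CO
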