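import Pool.Agent.helper23.CO.SpecC

open Finset Filter Topology

namespace CO

open CU

section
variable {d n : ℕ} [NeZero n]

theorem FS2_PD (hLIN : CU.LIN_stmt) (β : ℝ) (R : Finset (Site d n)) (f g : Conf d n → ℝ) (h : ∀ σ, f σ ≤ g σ) (t : ℕ) (σ : Conf d n) :
    (PD β R)^[t] f σ ≤ (PD β R)^[t] g σ := by
  induction t generalizing f g with
  | zero => exact h σ
  | succ t ih =>
    rw [Function.iterate_succ_apply, Function.iterate_succ_apply]
    apply ih
    intro τ
    exact (hLIN d n β f g 1 1 1).2.1 h (ext R τ)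

theorem FS2_le_ext (R : Finset (Site d n)) (σ : Conf d n) : σ ≤ ext R σ := by
  intro x
  unfold CU.ext
  by_cases h : x ∈ R
  · rw [if_pos h]
  · rw [if_neg h]
    exact le_top

theorem FS2_ext_ext (R : Finset (Site d n)) (σ : Conf d n) : ext R (ext R σ) = ext R σ := by
  funext x
  unfold CU.ext
  by_cases h : x ∈ R
  · rw [if_pos h, if_pos h]
  · rw [if_neg h, if_neg h]

theorem FS2_ext_mem (R : Finset (Site d n)) (σ : Conf d n) (h : σ ∈ PlusOn R) : ext R σ = σ := by
  unfold PlusOn at h
  rw [Finset.mem_filter] at h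
  funext x
  unfold CU.ext
  by_cases hx : x ∈ R
  · rw [if_pos hx]
  · rw [if_neg hx, h.2 x hx]

theorem FS2_Wpos (β : ℝ) (σ : Conf d n) : 0 < W β σ := Real.exp_pos _

theorem FS2_ZD (β : ℝ) (R : Finset (Site d n)) : 0 < ∑ σ ∈ PlusOn R, W β σ := by
  apply Finset.sum_pos (fun _ _ => Real.exp_pos _)
  refine ⟨plus, ?_⟩
  unfold PlusOn plus
  simp

theorem FS2_Z (β : ℝ) : 0 < ∑ σ : Conf d n, W β σ :=
  Finset.sum_pos (fun _ _ => Real.exp_pos _) ⟨plus, Finset.mem_univ _⟩

/-- restricted expectation as a quotient -/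
theorem FS2_ExD (β : ℝ) (R : Finset (Site d n)) (f : Conf d n → ℝ) :
    ExD β R f = Ex β (fun σ => f σ * ({σ : Conf d n | ∀ x ∈ univ \ R, σ x = true} : Set (Conf d n)).indicator (fun _ => 1) σ) /
      PrE β {σ : Conf d n | ∀ x ∈ univ \ R, σ x = true} := by
  classical
  have hZ := FS2_Z (d := d) (n := n) β
  unfold ExD PrE Ex
  rw [div_div_div_cancel_right₀ hZ.ne']
  have key : ∀ F : Conf d n → ℝ, ∑ σ : Conf d n, W β σ * (F σ * ({σ : Conf d n | ∀ x ∈ univ \ R, σ x = true} : Set (Conf d n)).indicator (fun _ => 1) σ) =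
      ∑ σ ∈ PlusOn R, W β σ * F σ := by
    intro F
    unfold PlusOn
    rw [Finset.sum_filter]
    apply Finset.sum_congr rfl
    intro σ _
    by_cases h : ∀ x, x ∉ R → σ x = true
    · rw [if_pos h, Set.indicator_of_mem]
      · ring
      · intro x hx
        rw [Finset.mem_sdiff] at hx
        exact h x hx.2
    · rw [if_neg h, Set.indicator_of_notMem]
      · ring
      · intro h2
        apply h
        intro x hx
        exact h2 x (by simp [hx])
  congr 1
  · exact (key f).symm
  · have := key (fun _ => 1)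
    simp only [one_mul, mul_one] at this
    exact this.symm

theorem FS2_Wplus (β : ℝ) : W β (plus : Conf d n) = 1 := by
  unfold W
  have : brk (plus : Conf d n) = ∅ := by
    unfold brk plus
    simp
  rw [this]
  simp

theorem FS2_Zle (β : ℝ) (hβ : 0 ≤ β) :
    ∑ η : Conf d n, W β η ≤ 2 ^ (Fintype.card (Site d n)) := by
  calc ∑ η : Conf d n, W β η ≤ ∑ _η : Conf d n, (1 : ℝ) := Finset.sum_le_sum fun σ _ => by
        unfold W
        rw [Real.exp_le_one_iff]
        have : (0 : ℝ) ≤ ((brk σ).card : ℝ) := Nat.cast_nonneg _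
        nlinarith [mul_nonneg hβ this]
    _ = 2 ^ (Fintype.card (Site d n)) := by
      rw [Finset.sum_const, nsmul_eq_mul, mul_one, Finset.card_univ, Fintype.card_fun, Fintype.card_bool]
      push_cast
      rfl

theorem FS2_Pr (β : ℝ) (hβ : 0 ≤ β) (A : Set (Conf d n)) (hA : plus ∈ A) : 1 ≤ 2 ^ (Fintype.card (Site d n)) * PrE β A := by
  classical
  have hZ := FS2_Z (d := d) (n := n) β
  have h1 : 1 ≤ ∑ σ : Conf d n, W β σ * A.indicator (fun _ => 1) σ := by
    have h2 : W β plus * A.indicator (fun _ => (1 : ℝ)) plus ≤ ∑ σ : Conf d n, W β σ * A.indicator (fun _ => 1) σ :=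
      Finset.single_le_sum (f := fun σ => W β σ * A.indicator (fun _ => (1 : ℝ)) σ)
        (fun σ _ => mul_nonneg (FS2_Wpos β σ).le (Set.indicator_nonneg (fun _ _ => zero_le_one) σ)) (Finset.mem_univ _)
    rw [FS2_Wplus, Set.indicator_of_mem hA, one_mul] at h2
    exact h2
  unfold PrE Ex
  rw [← mul_div_assoc, le_div_iff₀ hZ, one_mul]
  calc ∑ σ : Conf d n, W β σ ≤ 2 ^ (Fintype.card (Site d n)) * 1 := by rw [mul_one]; exact FS2_Zle β hβ
    _ ≤ _ := mul_le_mul_of_nonneg_left h1 (by positivity)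

end

theorem FS2 (hFSA : FSA_stmt) (hMIX : MIX_stmt) (hBX1 : CU.BX1_stmt) (hLIN : CU.LIN_stmt) : FS2_stmt := by
  intro d n _ hn β C s R R' hβ hC hR hR'
  classical
  obtain ⟨hF, hFm, hFE⟩ := hFSA d n hn β s hβ
  set N : ℝ := (Fintype.card (Site d n) : ℝ) with hN
  set E : ℝ := Real.exp ((2 * d * β + 1) * N - s / (2 * N * C)) with hE
  have hEp : 0 < E := Real.exp_pos _
  -- the main comparison
  have main : ∀ (S : Finset (Site d n)), Poi β S C → ∀ (φ : Conf d n → ℝ) (B : ℝ), Monotone φ → (∀ σ, |φ σ| ≤ B) →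
      (Pf β)^[s] φ plus ≤ ExD β S φ + B * E := by
    intro S hS φ B hφ hB
    have h1 := hBX1 d n hn β hβ S φ hφ s plus
    have h2 := FS2_PD hLIN β S φ (fun σ => φ (ext S σ)) (fun σ => hφ (FS2_le_ext S σ)) s plus
    have h3 := hMIX d n β C B S (fun σ => φ (ext S σ)) hβ hC hS (fun σ => by rw [FS2_ext_ext])
      (fun σ => hB _) s plus
    have h4 : ExD β S (fun σ => φ (ext S σ)) = ExD β S φ := by
      unfold ExD
      congr 1
      apply Finset.sum_congr rfl
      intro σ hσ
      show W β σ * φ (CU.ext S σ) = _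
      rw [FS2_ext_mem S σ hσ]
    rw [h4] at h3
    have h5 := (abs_le.1 h3).2
    rw [← hN, ← hE] at h5
    linarith
  set D : Set (Conf d n) := {σ : Conf d n | ∀ x ∈ univ \ R, σ x = true} with hD
  set D' : Set (Conf d n) := {σ : Conf d n | ∀ x ∈ univ \ R', σ x = true} with hD'
  set DD : Set (Conf d n) := {σ : Conf d n | ∀ x ∈ (univ \ R) ∪ (univ \ R'), σ x = true} with hDD
  have pD : plus ∈ D := fun x _ => rfl
  have pD' : plus ∈ D' := fun x _ => rfl
  have qD := FS2_Pr β hβ D pD
  have qD' := FS2_Pr β hβ D' pD'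
  have h2N : (0 : ℝ) < 2 ^ (Fintype.card (Site d n)) := by positivity
  have prD : 0 < PrE β D := by
    by_contra h
    push Not at h
    nlinarith [mul_nonneg h2N.le (neg_nonneg.2 h)]
  have prD' : 0 < PrE β D' := by
    by_contra h
    push Not at h
    nlinarith [mul_nonneg h2N.le (neg_nonneg.2 h)]
  -- step 1
  have s1 : Ex β (fun σ : Conf d n => Fs β s σ ^ 2) ≤ ExD β R (Fs β s) + 2 ^ (Fintype.card (Site d n)) * E := by
    have h := main R hR (Fs β s) (2 ^ (Fintype.card (Site d n))) hFm (fun σ => by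
      rw [abs_of_nonneg (hF σ).1]; exact (hF σ).2)
    rw [← hFE] at h
    have h2 : (fun σ : Conf d n => Fs β s σ ^ 2) = fun σ => Fs β s σ * Fs β s σ := by
      funext σ; ring
    rw [h2]
    exact h
  -- step 2
  have s2 : ExD β R (Fs β s) = (Pf β)^[s] (D.indicator fun _ => 1) plus / PrE β D := by
    rw [FS2_ExD, hFE]
  have hm : Monotone (D.indicator fun _ => (1 : ℝ)) := by
    intro a b hab
    by_cases ha : a ∈ D
    · have hb : b ∈ D := by
        intro x hx
        have h := hab x
        rw [ha x hx] at h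
        exact top_le_iff.1 h
      rw [Set.indicator_of_mem ha, Set.indicator_of_mem hb]
    · rw [Set.indicator_of_notMem ha]
      exact Set.indicator_nonneg (fun _ _ => zero_le_one) b
  have s3 := main R' hR' (D.indicator fun _ => 1) 1 hm (fun σ => by
    by_cases ha : σ ∈ D
    · rw [Set.indicator_of_mem ha]; norm_num
    · rw [Set.indicator_of_notMem ha]; norm_num)
  have s4 : ExD β R' (D.indicator fun _ => 1) = PrE β DD / PrE β D' := by
    rw [FS2_ExD]
    congr 1
    unfold PrE
    congr 1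
    funext σ
    by_cases h1 : σ ∈ D
    · by_cases h2 : σ ∈ D'
      · have h3 : σ ∈ DD := by
          intro x hx
          rw [Finset.mem_union] at hx
          rcases hx with hx | hx
          · exact h1 x hx
          · exact h2 x hx
        rw [Set.indicator_of_mem h1, Set.indicator_of_mem h2, Set.indicator_of_mem h3, one_mul]
      · have h3 : σ ∉ DD := fun h => h2 fun x hx => h x (Finset.mem_union_right _ hx)
        rw [Set.indicator_of_notMem h2, Set.indicator_of_notMem h3, mul_zero]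
    · have h3 : σ ∉ DD := fun h => h1 fun x hx => h x (Finset.mem_union_left _ hx)
      rw [Set.indicator_of_notMem h1, Set.indicator_of_notMem h3, zero_mul]
  rw [s4, one_mul] at s3
  have s5 : ExD β R (Fs β s) ≤ PrE β DD / (PrE β D * PrE β D') + 2 ^ (Fintype.card (Site d n)) * E := by
    rw [s2]
    have h1 : (Pf β)^[s] (D.indicator fun _ => 1) plus / PrE β D ≤ (PrE β DD / PrE β D' + E) / PrE β D :=
      div_le_div_of_nonneg_right s3 prD.le
    refine h1.trans ?_
    rw [add_div]
    have h2 : PrE β DD / PrE β D' / PrE β D = PrE β DD / (PrE β D * PrE β D') := by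
      rw [div_div, mul_comm]
    rw [h2]
    have h3 : E / PrE β D ≤ 2 ^ (Fintype.card (Site d n)) * E := by
      rw [div_le_iff₀ prD]
      nlinarith
    linarith
  have h6 : (2 : ℝ) ^ (Fintype.card (Site d n)) * E ≤ Real.exp ((2 * d * β + 2) * N - s / (2 * N * C)) := by
    have h7 : (2 : ℝ) ^ (Fintype.card (Site d n)) ≤ Real.exp N := by
      have h8 : (2 : ℝ) ≤ Real.exp 1 := by
        have := Real.add_one_le_exp (1 : ℝ)
        linarith
      calc (2 : ℝ) ^ (Fintype.card (Site d n)) ≤ (Real.exp 1) ^ (Fintype.card (Site d n)) := pow_le_pow_left₀ (by norm_num) h8 _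
        _ = Real.exp N := by rw [← Real.exp_nat_mul, mul_one]
    calc (2 : ℝ) ^ (Fintype.card (Site d n)) * E ≤ Real.exp N * E := mul_le_mul_of_nonneg_right h7 hEp.le
      _ = Real.exp ((2 * d * β + 2) * N - s / (2 * N * C)) := by
        rw [hE, ← Real.exp_add]
        congr 1
        ring
  linarith

end CO
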