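import Pool.Agent.helper23.CO.SpecC

open Finset Filter Topology

namespace CO

open CU

theorem FSA_W1 {d n : ℕ} [NeZero n] (β : ℝ) (hβ : 0 ≤ β) (σ : Conf d n) : W β σ ≤ 1 := by
  unfold W
  rw [Real.exp_le_one_iff]
  have : (0 : ℝ) ≤ ((brk σ).card : ℝ) := Nat.cast_nonneg _
  nlinarith [mul_nonneg hβ this]

theorem FSA_Z {d n : ℕ} [NeZero n] (β : ℝ) (hβ : 0 ≤ β) :
    ∑ η : Conf d n, W β η ≤ 2 ^ (Fintype.card (Site d n)) := by
  calc ∑ η : Conf d n, W β η ≤ ∑ _η : Conf d n, (1 : ℝ) := Finset.sum_le_sum fun σ _ => FSA_W1 β hβ σ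
    _ = 2 ^ (Fintype.card (Site d n)) := by
      rw [Finset.sum_const, nsmul_eq_mul, mul_one, Finset.card_univ, Fintype.card_fun, Fintype.card_bool]
      push_cast
      rfl

theorem FSA_Zpos {d n : ℕ} [NeZero n] (β : ℝ) : 0 < ∑ η : Conf d n, W β η :=
  Finset.sum_pos (fun _ _ => Real.exp_pos _) ⟨plus, Finset.mem_univ _⟩

theorem FSA_Wplus {d n : ℕ} [NeZero n] (β : ℝ) : W β (plus : Conf d n) = 1 := by
  unfold W
  have : brk (plus : Conf d n) = ∅ := by
    unfold brk plus
    simp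
  rw [this]
  simp

theorem FSA (hMON : CU.MON_stmt) (hREV : CU.REV_stmt) (hLIN : CU.LIN_stmt) : FSA_stmt := by
  intro d n _ hn β s hβ
  set I : Conf d n → ℝ := ({plus} : Set (Conf d n)).indicator fun _ => 1 with hI
  have hI0 : ∀ σ, 0 ≤ I σ := fun σ => Set.indicator_nonneg (fun _ _ => zero_le_one) σ
  have hI1 : ∀ σ, I σ ≤ 1 := fun σ => Set.indicator_le_self' (fun _ _ => zero_le_one) σ
  have hP0 : ∀ σ, 0 ≤ (Pf β)^[s] I σ := by
    intro σ
    have h := (hLIN d n β (fun _ => 0) I 1 1 s).2.1 hI0 σ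
    rw [(hREV d n β I I s).2 0] at h
    exact h
  have hP1 : ∀ σ, (Pf β)^[s] I σ ≤ 1 := by
    intro σ
    have h := (hLIN d n β I (fun _ => 1) 1 1 s).2.1 hI1 σ
    rw [(hREV d n β I I s).2 1] at h
    exact h
  have hZ := FSA_Zpos (d := d) (n := n) β
  refine ⟨fun σ => ⟨mul_nonneg hZ.le (hP0 σ), ?_⟩, ?_, ?_⟩
  · show (∑ η : Conf d n, W β η) * (Pf β)^[s] I σ ≤ _
    calc (∑ η : Conf d n, W β η) * (Pf β)^[s] I σ ≤ (∑ η : Conf d n, W β η) * 1 :=
          mul_le_mul_of_nonneg_left (hP1 σ) hZ.le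
      _ ≤ _ := by rw [mul_one]; exact FSA_Z β hβ
  · have hm : Monotone I := by
      intro a b hab
      by_cases ha : a = plus
      · have hb : b = plus := by
          funext x
          have h := hab x
          rw [ha] at h
          exact top_le_iff.1 h
        rw [ha, hb]
      · have : I a = 0 := Set.indicator_of_notMem (by simpa using ha) _
        rw [this]
        exact hI0 b
    have h2 := (hMON d n hn β hβ I hm).2 s
    intro a b hab
    exact mul_le_mul_of_nonneg_left (h2 hab) hZ.le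
  · intro φ
    have h1 := (hREV d n β I φ s).1
    have h2 : Ex β (fun σ : Conf d n => Fs β s σ * φ σ) = (∑ η : Conf d n, W β η) * Ex β (fun σ : Conf d n => (Pf β)^[s] I σ * φ σ) := by
      unfold Ex
      rw [← mul_div_assoc, Finset.mul_sum]
      congr 1
      apply Finset.sum_congr rfl
      intro σ _
      show W β σ * (((∑ η : Conf d n, W β η) * (Pf β)^[s] I σ) * φ σ) = _
      ring
    rw [h2, ← h1]
    unfold Ex
    rw [mul_div_cancel₀ _ hZ.ne']
    rw [Finset.sum_eq_single plus]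
    · show W β plus * (({plus} : Set (Conf d n)).indicator (fun _ => (1 : ℝ)) plus * (Pf β)^[s] φ plus) = _
      rw [FSA_Wplus, Set.indicator_of_mem (Set.mem_singleton _), one_mul, one_mul]
    · intro b _ hb
      show W β b * (({plus} : Set (Conf d n)).indicator (fun _ => (1 : ℝ)) b * (Pf β)^[s] φ b) = 0
      rw [Set.indicator_of_notMem (by simpa using hb)]
      ring
    · intro h
      exact absurd (Finset.mem_univ _) h

end CO
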