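import Pool.Agent.helper23.CO.Spec

open Finset Filter Topology

namespace CO

theorem G4W (hGHS : GHS_stmt) (hLIM : LIM_stmt) : G4W_stmt := by
  intro V _ _ K g hK hg A B hAB x
  have e1 := hLIM V K g (A ∪ B) (fun σ => CU.sg (σ x))
  have e2 := hLIM V K g A (fun σ => CU.sg (σ x))
  have e3 := hLIM V K g B (fun σ => CU.sg (σ x))
  refine le_of_tendsto_of_tendsto (e1.add tendsto_const_nhds) (e2.add e3) ?_
  filter_upwards [eventually_ge_atTop (0 : ℝ)] with t ht
  have h := hGHS V K g (fun y => if y ∈ A then t else 0) (fun y => if y ∈ B then t else 0) hK hg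
    (fun y => by split_ifs <;> linarith) (fun y => by split_ifs <;> linarith) x
  have h2 : (fun y => g y + if y ∈ A ∪ B then t else 0) =
      fun y => g y + (if y ∈ A then t else 0) + if y ∈ B then t else 0 := by
    funext y
    by_cases ha : y ∈ A
    · have hb : y ∉ B := Finset.disjoint_left.mp hAB ha
      simp [ha, hb]
    · by_cases hb : y ∈ B
      · simp [ha, hb]
      · simp [ha, hb]
  rw [h2]
  exact h

end CO
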