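import Pool.Agent.helper23.CO.Spec

open Finset Filter Topology

namespace CO

theorem GKW (hLPI : LPI_stmt) (hGK2 : GK2_stmt) (hLIM : LIM_stmt) : GKW_stmt := by
  intro V _ _ K K' g g' hK hg hKK hgg A B hAB x y
  have key : ∀ t : ℝ, 0 ≤ t → 
      ex K (fun y => g y + if y ∈ A then t else 0) (fun σ => CU.sg (σ x)) ≤
        ex K' (fun y => g' y + if y ∈ B then t else 0) (fun σ => CU.sg (σ x)) ∧
      ex K (fun y => g y + if y ∈ A then t else 0) (fun σ => CU.sg (σ x) * CU.sg (σ y)) ≤
        ex K' (fun y => g' y + if y ∈ B then t else 0) (fun σ => CU.sg (σ x) * CU.sg (σ y)) := by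
    intro t ht
    have h := hLPI V K' K (fun y => g' y + if y ∈ B then t else 0) (fun y => g y + if y ∈ A then t else 0)
      (fun u v => by rw [abs_of_nonneg (hK u v)]; exact hKK u v)
      (fun u => by
        have h0 : 0 ≤ g u := hg u
        have h1 := hgg u
        have h2 : (0 : ℝ) ≤ if u ∈ A then t else 0 := by split_ifs <;> linarith
        have h3 : (if u ∈ A then t else 0) ≤ (if u ∈ B then t else 0 : ℝ) := by
          by_cases ha : u ∈ A
          · simp [ha, hAB ha]
          · simp only [ha, if_false]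
            split_ifs <;> linarith
        rw [abs_of_nonneg (by linarith)]
        linarith)
    exact ⟨(le_abs_self _).trans (h.1 x), (le_abs_self _).trans (h.2.1 x y)⟩
  have hgk : ∀ t : ℝ, 0 ≤ t → 0 ≤ ex K (fun y => g y + if y ∈ A then t else 0) (fun σ => CU.sg (σ x)) ∧
      ex K (fun y => g y + if y ∈ A then t else 0) (fun σ => CU.sg (σ x)) ≤ 1 := by
    intro t ht
    exact (hGK2 V K (fun y => g y + if y ∈ A then t else 0) hK (fun u => by
      have h0 : 0 ≤ g u := hg u
      have h2 : (0 : ℝ) ≤ if u ∈ A then t else 0 := by split_ifs <;> linarith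
      linarith)).2.1 x
  refine ⟨?_, ?_, ?_, ?_, ?_⟩
  · refine le_of_tendsto_of_tendsto (hLIM V K g A _) (hLIM V K' g' B _) ?_
    filter_upwards [eventually_ge_atTop (0 : ℝ)] with t ht
    exact (key t ht).1
  · refine le_of_tendsto_of_tendsto (hLIM V K g A _) (hLIM V K' g' B _) ?_
    filter_upwards [eventually_ge_atTop (0 : ℝ)] with t ht
    exact (key t ht).2
  · refine ge_of_tendsto (hLIM V K g A _) ?_
    filter_upwards [eventually_ge_atTop (0 : ℝ)] with t ht
    exact (hgk t ht).1
  · refine le_of_tendsto (hLIM V K g A _) ?_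
    filter_upwards [eventually_ge_atTop (0 : ℝ)] with t ht
    exact (hgk t ht).2
  · intro f
    unfold exA ex pl
    simp

end CO
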