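import Pool.Agent.helper23.CO.Spec

open Finset Filter Topology

namespace CO

theorem LIM_HH {V : Type} [Fintype V] [DecidableEq V] (K : V → V → ℝ) (g : V → ℝ) (A : Finset V) (t : ℝ) (σ : V → Bool) :
    CWM.HH K (fun y => g y + if y ∈ A then t else 0) σ = CWM.HH K g σ + t * ∑ y ∈ A, CU.sg (σ y) := by
  unfold CWM.HH
  have h : ∑ x : V, (g x + if x ∈ A then t else 0) * CU.sg (σ x) =
      ∑ x : V, g x * CU.sg (σ x) + t * ∑ y ∈ A, CU.sg (σ y) := by
    have h2 : ∀ x : V, (g x + if x ∈ A then t else 0) * CU.sg (σ x) =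
        g x * CU.sg (σ x) + if x ∈ A then t * CU.sg (σ x) else 0 := by
      intro x
      split_ifs <;> ring
    rw [Finset.sum_congr rfl fun x _ => h2 x, Finset.sum_add_distrib, Finset.mul_sum]
    congr 1
    rw [← Finset.sum_filter]
    congr 1
    ext x
    simp
  linarith

theorem LIM_sg (b : Bool) : CU.sg b ≤ 1 := by
  unfold CU.sg; split_ifs <;> norm_num

theorem LIM_ter {V : Type} [Fintype V] [DecidableEq V] (A : Finset V) (σ : V → Bool) :
    Tendsto (fun t : ℝ => Real.exp (t * ∑ y ∈ A, (CU.sg (σ y) - 1))) atTop (𝓝 (if σ ∈ pl A then 1 else 0)) := by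
  by_cases h : σ ∈ pl A
  · rw [if_pos h]
    have h0 : ∑ y ∈ A, (CU.sg (σ y) - 1) = 0 := by
      apply Finset.sum_eq_zero
      intro y hy
      unfold pl at h
      rw [Finset.mem_filter] at h
      rw [h.2 y hy]
      unfold CU.sg
      norm_num
    rw [h0]
    simp
  · rw [if_neg h]
    unfold pl at h
    rw [Finset.mem_filter] at h
    push Not at h
    obtain ⟨y, hy, hy2⟩ := h (Finset.mem_univ _)
    have h1 : ∑ y ∈ A, (CU.sg (σ y) - 1) < 0 := by
      apply Finset.sum_neg' (fun z _ => by have := LIM_sg (σ z); linarith)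
      refine ⟨y, hy, ?_⟩
      have : σ y = false := by simpa using hy2
      rw [this]
      unfold CU.sg
      norm_num
    exact Real.tendsto_exp_atBot.comp (Filter.Tendsto.atTop_mul_const_of_neg h1 tendsto_id)

theorem LIM : LIM_stmt := by
  intro V _ _ K g A f
  have hE : ∀ t : ℝ, ex K (fun y => g y + if y ∈ A then t else 0) f =
      (∑ σ : V → Bool, Real.exp (CWM.HH K g σ) * Real.exp (t * ∑ y ∈ A, (CU.sg (σ y) - 1)) * f σ) /
        ∑ σ : V → Bool, Real.exp (CWM.HH K g σ) * Real.exp (t * ∑ y ∈ A, (CU.sg (σ y) - 1)) := by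
    intro t
    have h1 : ∀ σ : V → Bool, Real.exp (CWM.HH K g σ) * Real.exp (t * ∑ y ∈ A, (CU.sg (σ y) - 1)) =
        Real.exp (-(t * A.card)) * Real.exp (CWM.HH K (fun y => g y + if y ∈ A then t else 0) σ) := by
      intro σ
      rw [LIM_HH, ← Real.exp_add, ← Real.exp_add]
      congr 1
      rw [Finset.sum_sub_distrib, Finset.sum_const, nsmul_eq_mul]
      ring
    simp only [h1]
    unfold ex
    simp only [mul_assoc]
    rw [← Finset.mul_sum, ← Finset.mul_sum]
    rw [mul_div_mul_left _ _ (Real.exp_pos _).ne']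
  simp only [hE]
  have hA : exA K g A f = (∑ σ : V → Bool, Real.exp (CWM.HH K g σ) * (if σ ∈ pl A then 1 else 0) * f σ) /
      ∑ σ : V → Bool, Real.exp (CWM.HH K g σ) * (if σ ∈ pl A then 1 else 0) := by
    unfold exA
    congr 1
    · rw [← Finset.sum_filter_add_sum_filter_not univ (fun σ => σ ∈ pl A)]
      rw [Finset.sum_eq_zero (s := univ.filter fun σ => ¬ σ ∈ pl A)]
      · rw [add_zero, Finset.filter_mem_eq_inter, Finset.univ_inter]
        apply Finset.sum_congr rfl
        intro σ hσ
        rw [if_pos hσ, mul_one]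
      · intro σ hσ
        rw [Finset.mem_filter] at hσ
        rw [if_neg hσ.2]
        ring
    · rw [← Finset.sum_filter_add_sum_filter_not univ (fun σ => σ ∈ pl A)]
      rw [Finset.sum_eq_zero (s := univ.filter fun σ => ¬ σ ∈ pl A)]
      · rw [add_zero, Finset.filter_mem_eq_inter, Finset.univ_inter]
        apply Finset.sum_congr rfl
        intro σ hσ
        rw [if_pos hσ, mul_one]
      · intro σ hσ
        rw [Finset.mem_filter] at hσ
        rw [if_neg hσ.2]
        ring
  rw [hA]
  apply Filter.Tendsto.div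
  · apply tendsto_finsetSum
    intro σ _
    exact ((LIM_ter A σ).const_mul _).mul_const _
  · apply tendsto_finsetSum
    intro σ _
    exact (LIM_ter A σ).const_mul _
  · have hpos : 0 < ∑ σ : V → Bool, Real.exp (CWM.HH K g σ) * (if σ ∈ pl A then (1 : ℝ) else 0) := by
      apply Finset.sum_pos'
      · intro σ _
        split_ifs
        · rw [mul_one]; exact (Real.exp_pos _).le
        · simp
      · refine ⟨fun _ => true, Finset.mem_univ _, ?_⟩
        rw [if_pos, mul_one]
        · exact Real.exp_pos _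
        · unfold pl
          simp
    exact hpos.ne'

end CO
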