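import Pool.Agent.helper23.CO.Spec

open Finset Filter Topology FinsetFamily

namespace CO

theorem MLR_pos {V : Type} [Fintype V] [DecidableEq V] (w : (V → Bool) → ℝ) (hw : ∀ σ, 0 < w σ) (A : Finset V) (σ : V → Bool) :
    0 < ∑ η ∈ fb A σ, w η := by
  apply Finset.sum_pos (fun η _ => hw η)
  refine ⟨σ, ?_⟩
  unfold fb
  simp

theorem MLR_Z {V : Type} [Fintype V] [DecidableEq V] (w : (V → Bool) → ℝ) (hw : ∀ σ, 0 < w σ) :
    0 < ∑ η : V → Bool, w η := Finset.sum_pos (fun η _ => hw η) ⟨fun _ => true, Finset.mem_univ _⟩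

theorem MLR_key {V : Type} [Fintype V] [DecidableEq V] (P Q : (V → Bool) → ℝ) (h : Hol P Q) (A : Finset V)
    (σ τ : V → Bool) (hst : σ ≤ τ) : (∑ η ∈ fb A τ, P η) * ∑ η ∈ fb A σ, Q η ≤ (∑ η ∈ fb A σ, P η) * ∑ η ∈ fb A τ, Q η := by
  classical
  have hP : (0 : (V → Bool) → ℝ) ≤ P := fun σ => (h.1 σ).le
  have hQ : (0 : (V → Bool) → ℝ) ≤ Q := fun σ => (h.2.1 σ).le
  have h4 := four_functions_theorem (α := V → Bool) P Q P Q hP hQ hP hQ h.2.2 (fb A τ) (fb A σ)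
  refine h4.trans ?_
  have h1 : fb A τ ⊼ fb A σ ⊆ fb A σ := by
    intro η hη
    rw [Finset.mem_infs] at hη
    obtain ⟨a, ha, b, hb, rfl⟩ := hη
    unfold fb at ha hb ⊢
    rw [Finset.mem_filter] at ha hb ⊢
    refine ⟨Finset.mem_univ _, fun x hx => ?_⟩
    rw [Pi.inf_apply, ha.2 x hx, hb.2 x hx]
    exact inf_eq_right.2 (hst x)
  have h2 : fb A τ ⊻ fb A σ ⊆ fb A τ := by
    intro η hη
    rw [Finset.mem_sups] at hη
    obtain ⟨a, ha, b, hb, rfl⟩ := hη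
    unfold fb at ha hb ⊢
    rw [Finset.mem_filter] at ha hb ⊢
    refine ⟨Finset.mem_univ _, fun x hx => ?_⟩
    rw [Pi.sup_apply, ha.2 x hx, hb.2 x hx]
    exact sup_eq_left.2 (hst x)
  apply mul_le_mul
  · exact Finset.sum_le_sum_of_subset_of_nonneg h1 fun η _ _ => hP η
  · exact Finset.sum_le_sum_of_subset_of_nonneg h2 fun η _ _ => hQ η
  · exact Finset.sum_nonneg fun η _ => hQ η
  · exact Finset.sum_nonneg fun η _ => hP η

theorem MLR : MLR_stmt := by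
  intro V _ _ P Q h A σ τ hst
  have hk := MLR_key P Q h A σ τ hst
  have hZP := MLR_Z P h.1
  have hZQ := MLR_Z Q h.2.1
  have p1 := MLR_pos Q h.2.1 A σ
  have p2 := MLR_pos Q h.2.1 A τ
  unfold dn ma
  rw [div_div_div_eq, div_div_div_eq]
  rw [div_le_div_iff₀ (mul_pos hZP p2) (mul_pos hZP p1)]
  calc (∑ η ∈ fb A τ, P η) * (∑ η : V → Bool, Q η) * ((∑ η : V → Bool, P η) * ∑ η ∈ fb A σ, Q η)
      = ((∑ η ∈ fb A τ, P η) * ∑ η ∈ fb A σ, Q η) * ((∑ η : V → Bool, Q η) * (∑ η : V → Bool, P η)) := by ring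
    _ ≤ ((∑ η ∈ fb A σ, P η) * ∑ η ∈ fb A τ, Q η) * ((∑ η : V → Bool, Q η) * (∑ η : V → Bool, P η)) :=
        mul_le_mul_of_nonneg_right hk (mul_pos hZQ hZP).le
    _ = _ := by ring

end CO
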