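import Pool.Agent.helper23.CO.Spec

open Finset Filter Topology

namespace CO

theorem PRO_pos {V : Type} [Fintype V] [DecidableEq V] (K : V → V → ℝ) (g : V → ℝ) (C : Finset V) :
    0 < ∑ σ ∈ pl C, Real.exp (CWM.HH K g σ) := by
  apply Finset.sum_pos (fun η _ => Real.exp_pos _)
  refine ⟨fun _ => true, ?_⟩
  unfold pl
  simp

theorem PRO_Z {V : Type} [Fintype V] [DecidableEq V] (K : V → V → ℝ) (g : V → ℝ) :
    0 < ∑ σ : V → Bool, Real.exp (CWM.HH K g σ) :=
  Finset.sum_pos (fun η _ => Real.exp_pos _) ⟨fun _ => true, Finset.mem_univ _⟩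

theorem PRO_prpos {V : Type} [Fintype V] [DecidableEq V] (K : V → V → ℝ) (g : V → ℝ) (C : Finset V) : 0 < pr K g C :=
  div_pos (PRO_pos K g C) (PRO_Z K g)

theorem PRO_ins {V : Type} [Fintype V] [DecidableEq V] (K : V → V → ℝ) (g : V → ℝ) (C : Finset V) (x : V) :
    pr K g (insert x C) = pr K g C * ((1 + exA K g C (fun σ => CU.sg (σ x))) / 2) := by
  have hC := PRO_pos K g C
  have e : ∑ σ ∈ pl (insert x C), Real.exp (CWM.HH K g σ) =
      ((∑ σ ∈ pl C, Real.exp (CWM.HH K g σ)) + ∑ σ ∈ pl C, Real.exp (CWM.HH K g σ) * CU.sg (σ x)) / 2 := by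
    rw [← Finset.sum_add_distrib, Finset.sum_div]
    have hs : pl (insert x C) = (pl C).filter fun σ => σ x = true := by
      ext σ
      unfold pl
      simp only [Finset.mem_filter, Finset.mem_univ, true_and, Finset.mem_insert, forall_eq_or_imp]
      exact And.comm
    rw [hs, Finset.sum_filter]
    apply Finset.sum_congr rfl
    intro σ _
    unfold CU.sg
    by_cases h : σ x = true
    · simp only [h, if_true]; ring
    · simp only [h]; simp
  unfold pr exA
  rw [e]
  field_simp

theorem PRO (hGKW : GKW_stmt) (hG4W : G4W_stmt) : PRO_stmt := by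
  intro V _ _ K g hK hg W W'
  induction W using Finset.induction_on with
  | empty =>
    intro _
    rw [Finset.empty_union, Finset.sum_empty, Real.exp_zero, mul_one]
    have : pr K g ∅ = 1 := by
      unfold pr pl
      simp only [Finset.notMem_empty, false_imp_iff, imp_true_iff, Finset.filter_true]
      exact div_self (PRO_Z K g).ne'
    rw [this, one_mul]
  | insert x W hx ih =>
    intro hd
    rw [Finset.disjoint_insert_left] at hd
    have ih' := ih hd.2
    rw [Finset.insert_union, PRO_ins, PRO_ins, Finset.sum_insert hx, Real.exp_add]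
    set u := exA K g (W ∪ W') (fun σ => CU.sg (σ x)) with hu
    set v := exA K g W (fun σ => CU.sg (σ x)) with hv
    set δ := exA K g W' (fun σ => CU.sg (σ x)) - ex K g (fun σ => CU.sg (σ x)) with hδ
    have g1 := hGKW V K K g g hK hg (fun _ _ => le_rfl) (fun _ => le_rfl) W (W ∪ W') Finset.subset_union_left x x
    have g2 := hG4W V K g hK hg W W' hd.2 x
    have hvu : v ≤ u := g1.1
    have hv0 : 0 ≤ v := g1.2.2.1
    have hd2 : u - v ≤ δ := by rw [hu, hv, hδ]; linarith
    have h1 : 1 + u ≤ (1 + v) * Real.exp δ := by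
      have h2 : 1 + (u - v) ≤ Real.exp δ := by
        have := Real.add_one_le_exp (u - v)
        have h3 := Real.exp_le_exp.2 hd2
        linarith
      have h4 : 1 + u ≤ (1 + v) * (1 + (u - v)) := by nlinarith
      exact h4.trans (mul_le_mul_of_nonneg_left h2 (by linarith))
    set S := Real.exp (∑ y ∈ W, (exA K g W' (fun σ => CU.sg (σ y)) - ex K g fun σ => CU.sg (σ y))) with hS
    calc pr K g (W ∪ W') * ((1 + u) / 2)
        ≤ (pr K g W * pr K g W' * S) * ((1 + v) * Real.exp δ / 2) := by
          apply mul_le_mul ih' (by linarith) (by linarith)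
          exact mul_nonneg (mul_nonneg (PRO_prpos K g W).le (PRO_prpos K g W').le) (Real.exp_pos _).le
      _ = pr K g W * ((1 + v) / 2) * pr K g W' * (Real.exp δ * S) := by ring

end CO
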