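import Pool.Agent.helper23.CO.SpecC

open Finset Filter Topology

namespace CO

open CU

theorem PTN_symm {d n : ℕ} {x y : Site d n} (h : nn x y) : nn y x := by
  obtain ⟨i, hi⟩ := h
  exact ⟨i, hi.symm⟩

theorem PTN (hERA : ERA_stmt) (hERT : ERT_stmt) (hTEN : TEN_stmt) : PTN_stmt := by
  intro d n _ β C R₁ R₂ hC hdis hnn h1 h2 f σ
  have T1 : ∀ (f : Conf d n → ℝ) (σ : Conf d n), ER β (R₁ ∪ R₂) f σ = ER β R₁ (ER β R₂ f) σ := hTEN d n β R₁ R₂ hdis hnn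
  have T2 : ∀ (f : Conf d n → ℝ) (σ : Conf d n), ER β (R₁ ∪ R₂) f σ = ER β R₂ (ER β R₁ f) σ := by
    intro f σ
    rw [Finset.union_comm]
    exact hTEN d n β R₂ R₁ hdis.symm (fun x hx y hy h => hnn y hy x hx (PTN_symm h)) f σ
  have A0 := hERA d n β (R₁ ∪ R₂)
  have A1 := hERA d n β R₁
  have A2 := hERA d n β R₂
  have W1 : ∀ (h : Conf d n → ℝ) (τ : Conf d n), ER β (R₁ ∪ R₂) (ER β R₁ h) τ = ER β (R₁ ∪ R₂) h τ :=
    fun h τ => (hERT d n β R₁ h h).1 (R₁ ∪ R₂) τ Finset.subset_union_left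
  have W2 : ∀ (h : Conf d n → ℝ) (τ : Conf d n), ER β (R₁ ∪ R₂) (ER β R₂ h) τ = ER β (R₁ ∪ R₂) h τ :=
    fun h τ => (hERT d n β R₂ h h).1 (R₁ ∪ R₂) τ Finset.subset_union_right
  -- linearity for sums
  have hsum : ∀ (s : Finset (Site d n)) (F : Site d n → Conf d n → ℝ) (τ : Conf d n),
      ER β (R₁ ∪ R₂) (fun η => ∑ x ∈ s, F x η) τ = ∑ x ∈ s, ER β (R₁ ∪ R₂) (F x) τ := by
    intro s F τ
    classical
    induction s using Finset.induction_on with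
    | empty => simp only [Finset.sum_empty]; exact A0.2.2.1 0 τ
    | insert x s hx ih =>
      simp only [Finset.sum_insert hx]
      rw [← ih]
      have := A0.2.1 (F x) (fun η => ∑ x ∈ s, F x η) 1 1 τ
      simpa only [one_mul] using this
  set g := ER β R₂ f with hg
  have hEf : ∀ η : Conf d n, ER β (R₁ ∪ R₂) f η = ER β R₁ g η := T1 f
  -- decomposition
  have e0 : (fun η : Conf d n => (f η - ER β (R₁ ∪ R₂) f η) ^ 2) = fun η => 1 * (f η - g η) ^ 2 +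
      1 * (2 * ((g η - ER β (R₁ ∪ R₂) f η) * (f η - g η)) + 1 * (g η - ER β (R₁ ∪ R₂) f η) ^ 2) := by
    funext η
    ring
  have hcross : ER β (R₁ ∪ R₂) (fun η => (g η - ER β (R₁ ∪ R₂) f η) * (f η - g η)) σ = 0 := by
    rw [← W2]
    have hp : (ER β R₂ fun η => (g η - ER β (R₁ ∪ R₂) f η) * (f η - g η)) = fun _ => 0 := by
      funext τ
      have h := A2.2.2.2.2.1 (fun η => f η - g η) (fun η => g η - ER β (R₁ ∪ R₂) f η) τ (by
        intro a b hab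
        show g a - ER β (R₁ ∪ R₂) f a = g b - ER β (R₁ ∪ R₂) f b
        rw [hg, A2.2.2.2.1 f a b hab, A0.2.2.2.1 f a b (fun x hx => hab x (fun h => hx (Finset.mem_union_right _ h)))])
      rw [h]
      have h3 := A2.2.1 f g 1 (-1) τ
      have h4 : (fun η => f η - g η) = fun η => 1 * f η + -1 * g η := by
        funext η; ring
      rw [h4, h3]
      have h5 : ER β R₂ g τ = g τ := by
        rw [hg]
        exact (hERT d n β R₂ f f).1 R₂ τ (Finset.Subset.refl _)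
      rw [h5, ← hg]
      ring
    rw [hp]
    exact A0.2.2.1 0 σ
  have e1 : ER β (R₁ ∪ R₂) (fun η : Conf d n => (f η - ER β (R₁ ∪ R₂) f η) ^ 2) σ =
      ER β (R₁ ∪ R₂) (fun η => (f η - g η) ^ 2) σ + ER β (R₁ ∪ R₂) (fun η => (g η - ER β (R₁ ∪ R₂) f η) ^ 2) σ := by
    rw [e0, A0.2.1, A0.2.1, hcross]
    ring
  rw [e1]
  -- first term
  have b1 : ER β (R₁ ∪ R₂) (fun η => (f η - g η) ^ 2) σ ≤ C * ∑ x ∈ R₂, ER β (R₁ ∪ R₂) (fun η => (f η - Kx β x f η) ^ 2) σ := by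
    rw [← W2, ← hsum]
    have h := A0.1 (ER β R₂ fun η => (f η - g η) ^ 2) (fun τ => C * ∑ x ∈ R₂, ER β R₂ (fun η => (f η - Kx β x f η) ^ 2) τ + 0 * 0) σ
      (fun τ _ => by
        rw [mul_zero, add_zero]
        exact h2 f τ)
    refine h.trans (le_of_eq ?_)
    rw [A0.2.1, hsum, hsum]
    simp only [W2]
    ring
  -- second term
  have b2 : ER β (R₁ ∪ R₂) (fun η => (g η - ER β (R₁ ∪ R₂) f η) ^ 2) σ ≤ C * ∑ x ∈ R₁, ER β (R₁ ∪ R₂) (fun η => (f η - Kx β x f η) ^ 2) σ := by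
    have c1 : ∀ τ, (g τ - ER β (R₁ ∪ R₂) f τ) ^ 2 ≤ ER β R₂ (fun η => (f η - ER β R₁ f η) ^ 2) τ := by
      intro τ
      have h := (A2.2.2.2.2.2 (fun η => f η - ER β R₁ f η) τ).2
      refine le_trans (le_of_eq ?_) h
      have h4 : (fun η => f η - ER β R₁ f η) = fun η => 1 * f η + -1 * ER β R₁ f η := by
        funext η; ring
      rw [h4, A2.2.1, ← T2 f τ, ← hg]
      ring
    have c2 := A0.1 (fun η => (g η - ER β (R₁ ∪ R₂) f η) ^ 2) (ER β R₂ fun η => (f η - ER β R₁ f η) ^ 2) σ (fun τ _ => c1 τ)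
    refine c2.trans ?_
    rw [W2, ← W1, ← hsum]
    have h := A0.1 (ER β R₁ fun η => (f η - ER β R₁ f η) ^ 2) (fun τ => C * ∑ x ∈ R₁, ER β R₁ (fun η => (f η - Kx β x f η) ^ 2) τ + 0 * 0) σ
      (fun τ _ => by
        rw [mul_zero, add_zero]
        exact h1 f τ)
    refine h.trans (le_of_eq ?_)
    rw [A0.2.1, hsum, hsum]
    simp only [W1]
    ring
  rw [Finset.sum_union hdis, mul_add]
  linarith

end CO
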