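import Pool.Agent.helper23.CO.SpecC

open Finset Filter Topology

namespace CO

open CU

theorem SLB_ERnn {d n : ℕ} [NeZero n] (β : ℝ) (R : Finset (Site d n)) (f : Conf d n → ℝ) (hf : ∀ σ, 0 ≤ f σ) (σ : Conf d n) :
    0 ≤ ER β R f σ := by
  unfold ER
  apply div_nonneg
  · exact Finset.sum_nonneg fun η _ => mul_nonneg (Real.exp_pos _).le (hf η)
  · exact Finset.sum_nonneg fun η _ => (Real.exp_pos _).le

theorem SLB_mono {d n : ℕ} [NeZero n] (β : ℝ) (R : Finset (Site d n)) (C C' : ℝ) (h : C ≤ C') (hp : Poi β R C) : Poi β R C' := by
  intro f σ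
  refine (hp f σ).trans ?_
  apply mul_le_mul_of_nonneg_right h
  exact Finset.sum_nonneg fun x _ => SLB_ERnn β R _ (fun η => sq_nonneg _) σ

theorem SLB_empty {d n : ℕ} [NeZero n] (β : ℝ) (C : ℝ) : Poi β (∅ : Finset (Site d n)) C := by
  intro f σ
  have h : ∀ (g : Conf d n → ℝ) (τ : Conf d n), ER β ∅ g τ = g τ := by
    intro g τ
    unfold ER
    have : fo ∅ τ = {τ} := by
      unfold fo
      ext η
      simp only [Finset.mem_filter, Finset.mem_univ, true_and, Finset.mem_singleton, Finset.notMem_empty, not_false_eq_true, forall_true_left]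
      exact ⟨fun h => funext h, fun h x => by rw [h]⟩
    rw [this, Finset.sum_singleton, Finset.sum_singleton]
    exact mul_div_cancel_left₀ _ (Real.exp_pos _).ne'
  rw [Finset.sum_empty, mul_zero]
  rw [h]
  rw [h]
  simp

theorem SLB (hPOI : POI_stmt) (hCUT : CUT_stmt) (hPTN : PTN_stmt) : SLB_stmt := by
  intro d n _ hd β I K w l hd2 hn hβ hlK hl1 hlw
  classical
  set C : ℝ := 2 * (Fintype.card (Site d n) : ℝ) * Real.exp (4 * β * (((d : ℝ) + 2) * w * (n : ℝ) ^ (d - 2)) + 4 * d * β) with hC
  have hC0 : 0 ≤ C := by positivity
  -- one class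
  have one : ∀ J : Finset (ZMod n), J.card ≤ w → Poi β (slab hd J : Finset (Site d n)) C := by
    intro J hJ
    obtain ⟨ρ, hρ, hρc⟩ := hCUT d n hd J hd2 hn
    have h := hPOI d n hn β (slab hd J) ρ ((d + 2) * J.card * n ^ (d - 2)) hβ (hρ.injOn) hρc
    refine SLB_mono β _ _ _ ?_ h
    rw [hC]
    apply mul_le_mul
    · apply mul_le_mul_of_nonneg_left _ (by norm_num)
      exact_mod_cast Finset.card_le_univ _
    · apply Real.exp_le_exp.2
      apply add_le_add _ le_rfl
      apply mul_le_mul_of_nonneg_left _ (by positivity)
      push_cast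
      apply mul_le_mul_of_nonneg_right _ (by positivity)
      apply mul_le_mul_of_nonneg_left _ (by positivity)
      exact_mod_cast hJ
    · exact (Real.exp_pos _).le
    · positivity
  have key : ∀ k : ℕ, Poi β (slab hd (I.filter fun u => l u < k) : Finset (Site d n)) C := by
    intro k
    induction k with
    | zero =>
      have : (slab hd (I.filter fun u => l u < 0) : Finset (Site d n)) = ∅ := by
        unfold slab
        simp
      rw [this]
      exact SLB_empty β C
    | succ k ih =>
      have e : (slab hd (I.filter fun u => l u < k + 1) : Finset (Site d n)) =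
          slab hd (I.filter fun u => l u < k) ∪ slab hd (I.filter fun u => l u = k) := by
        unfold slab
        ext x
        simp only [Finset.mem_filter, Finset.mem_univ, true_and, Finset.mem_union]
        constructor
        · rintro ⟨h1, h2⟩
          rcases Nat.lt_succ_iff_lt_or_eq.1 h2 with h | h
          · exact Or.inl ⟨h1, h⟩
          · exact Or.inr ⟨h1, h⟩
        · rintro (⟨h1, h2⟩ | ⟨h1, h2⟩)
          · exact ⟨h1, by omega⟩
          · exact ⟨h1, by omega⟩
      rw [e]
      apply hPTN d n β C _ _ hC0 _ _ ih (one _ (hlw k))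
      · rw [Finset.disjoint_left]
        intro x hx hx2
        unfold slab at hx hx2
        simp only [Finset.mem_filter, Finset.mem_univ, true_and] at hx hx2
        omega
      · intro x hx y hy hxy
        unfold slab at hx hy
        simp only [Finset.mem_filter, Finset.mem_univ, true_and] at hx hy
        obtain ⟨i, hi⟩ := hxy
        by_cases h0 : (⟨0, hd⟩ : Fin d) = i
        · subst h0
          rcases hi with hi | hi
          · have e1 : y ⟨0, hd⟩ = x ⟨0, hd⟩ + 1 := by
              rw [hi, Pi.add_apply]
              unfold ev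
              rw [Pi.single_eq_same]
            have := hl1 (x ⟨0, hd⟩) hx.1 (by rw [← e1]; exact hy.1)
            rw [← e1] at this
            omega
          · have e1 : x ⟨0, hd⟩ = y ⟨0, hd⟩ + 1 := by
              rw [hi, Pi.add_apply]
              unfold ev
              rw [Pi.single_eq_same]
            have := hl1 (y ⟨0, hd⟩) hy.1 (by rw [← e1]; exact hx.1)
            rw [← e1] at this
            omega
        · have e0 : (ev i : Site d n) ⟨0, hd⟩ = 0 := by
            unfold ev
            exact Pi.single_eq_of_ne h0 _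
          rcases hi with hi | hi
          · have e1 : y ⟨0, hd⟩ = x ⟨0, hd⟩ := by
              rw [hi, Pi.add_apply, e0, add_zero]
            rw [e1] at hy
            omega
          · have e1 : x ⟨0, hd⟩ = y ⟨0, hd⟩ := by
              rw [hi, Pi.add_apply, e0, add_zero]
            rw [e1] at hx
            omega
  have hK := key K
  have : I.filter (fun u => l u < K) = I := Finset.filter_true_of_mem hlK
  rw [this] at hK
  exact hK

end CO
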