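import Pool.Agent.helper23.CO.Spec

open Finset Filter Topology

namespace CO

theorem STO_pos {V : Type} [Fintype V] [DecidableEq V] (w : (V → Bool) → ℝ) (hw : ∀ σ, 0 < w σ) (A : Finset V) (σ : V → Bool) :
    0 < ∑ η ∈ fb A σ, w η := by
  apply Finset.sum_pos (fun η _ => hw η)
  refine ⟨σ, ?_⟩
  unfold fb
  simp

theorem STO_ind {α : Type} [Fintype α] [DecidableEq α] (S : Finset α) (F : α → ℝ) :
    ∑ a : α, (if a ∈ S then F a else 0) = ∑ a ∈ S, F a := by
  rw [Finset.sum_ite_mem, Finset.univ_inter]

theorem STO : STO_stmt := by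
  intro V _ _ P Q h A f hf σ τ hst
  classical
  set Z := ∑ η ∈ fb A σ, P η with hZ
  set Z' := ∑ η ∈ fb A τ, Q η with hZ'
  have hZp : 0 < Z := STO_pos P h.1 A σ
  have hZp' : 0 < Z' := STO_pos Q h.2.1 A τ
  set c := f ⊥ with hc
  have s1 : ∑ η : V → Bool, (if η ∈ fb A σ then P η / Z else 0) = 1 := by
    rw [STO_ind, ← Finset.sum_div, ← hZ, div_self hZp.ne']
  have s2 : ∑ η : V → Bool, (if η ∈ fb A τ then Q η / Z' else 0) = 1 := by
    rw [STO_ind, ← Finset.sum_div, ← hZ', div_self hZp'.ne']
  have key := holley (α := V → Bool)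
    (μ := fun η => f η - c)
    (f := fun η => if η ∈ fb A σ then P η / Z else 0)
    (g := fun η => if η ∈ fb A τ then Q η / Z' else 0)
    (fun η => sub_nonneg.2 (hf bot_le))
    (fun η => by
      show (0 : ℝ) ≤ if η ∈ fb A σ then P η / Z else 0
      split_ifs
      · exact div_nonneg (h.1 _).le hZp.le
      · exact le_rfl)
    (fun η => by
      show (0 : ℝ) ≤ if η ∈ fb A τ then Q η / Z' else 0
      split_ifs
      · exact div_nonneg (h.2.1 _).le hZp'.le
      · exact le_rfl)
    (fun a b hab => sub_le_sub_right (hf hab) c)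
    (by rw [s1, s2])
    (by
      intro a b
      show (if a ∈ fb A σ then P a / Z else 0) * (if b ∈ fb A τ then Q b / Z' else 0) ≤
        (if a ⊓ b ∈ fb A σ then P (a ⊓ b) / Z else 0) * (if a ⊔ b ∈ fb A τ then Q (a ⊔ b) / Z' else 0)
      by_cases ha : a ∈ fb A σ
      · by_cases hb : b ∈ fb A τ
        · have h1 : a ⊓ b ∈ fb A σ := by
            unfold fb at ha hb ⊢
            rw [Finset.mem_filter] at ha hb ⊢
            refine ⟨Finset.mem_univ _, fun x hx => ?_⟩
            rw [Pi.inf_apply, ha.2 x hx, hb.2 x hx]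
            exact inf_eq_left.2 (hst x)
          have h2 : a ⊔ b ∈ fb A τ := by
            unfold fb at ha hb ⊢
            rw [Finset.mem_filter] at ha hb ⊢
            refine ⟨Finset.mem_univ _, fun x hx => ?_⟩
            rw [Pi.sup_apply, ha.2 x hx, hb.2 x hx]
            exact sup_eq_right.2 (hst x)
          rw [if_pos ha, if_pos hb, if_pos h1, if_pos h2, div_mul_div_comm, div_mul_div_comm]
          exact div_le_div_of_nonneg_right (h.2.2 a b) (mul_pos hZp hZp').le
        · rw [if_neg hb, mul_zero]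
          split_ifs
          · exact mul_nonneg (div_nonneg (h.1 _).le hZp.le) (div_nonneg (h.2.1 _).le hZp'.le)
          · simp
          · simp
          · simp
      · rw [if_neg ha, zero_mul]
        split_ifs
        · exact mul_nonneg (div_nonneg (h.1 _).le hZp.le) (div_nonneg (h.2.1 _).le hZp'.le)
        · simp
        · simp
        · simp)
  have e1 : ∑ η : V → Bool, (f η - c) * (if η ∈ fb A σ then P η / Z else 0) = ca P A f σ - c := by
    have : ∀ η : V → Bool, (f η - c) * (if η ∈ fb A σ then P η / Z else 0) =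
        if η ∈ fb A σ then (P η * f η / Z - c * (P η / Z)) else 0 := by
      intro η
      split_ifs <;> ring
    rw [Finset.sum_congr rfl fun η _ => this η, STO_ind, Finset.sum_sub_distrib, ← Finset.sum_div, ← Finset.mul_sum,
      ← Finset.sum_div, ← hZ, div_self hZp.ne', mul_one]
    unfold ca
    rw [← hZ]
  have e2 : ∑ η : V → Bool, (f η - c) * (if η ∈ fb A τ then Q η / Z' else 0) = ca Q A f τ - c := by
    have : ∀ η : V → Bool, (f η - c) * (if η ∈ fb A τ then Q η / Z' else 0) =
        if η ∈ fb A τ then (Q η * f η / Z' - c * (Q η / Z')) else 0 := by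
      intro η
      split_ifs <;> ring
    rw [Finset.sum_congr rfl fun η _ => this η, STO_ind, Finset.sum_sub_distrib, ← Finset.sum_div, ← Finset.mul_sum,
      ← Finset.sum_div, ← hZ', div_self hZp'.ne', mul_one]
    unfold ca
    rw [← hZ']
  rw [e1, e2] at key
  linarith

end CO
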