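import Pool.Agent.helper23.CO.SpecC

open Finset Filter Topology

namespace CO

open CU

/-- `η` on `R`, `σ` elsewhere -/
def TEN_mx {d n : ℕ} (R : Finset (Site d n)) (η σ : Conf d n) : Conf d n := fun x => if x ∈ R then η x else σ x

theorem TEN_fo {d n : ℕ} [NeZero n] (R : Finset (Site d n)) (σ η : Conf d n) : η ∈ fo R σ ↔ ∀ x, x ∉ R → η x = σ x := by
  unfold fo
  simp

theorem TEN_sum {d n : ℕ} [NeZero n] (R₁ R₂ : Finset (Site d n)) (hdis : Disjoint R₁ R₂) (σ : Conf d n) (F : Conf d n → ℝ) :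
    ∑ ζ ∈ fo (R₁ ∪ R₂) σ, F ζ = ∑ η ∈ fo R₁ σ, ∑ ξ ∈ fo R₂ σ, F (TEN_mx R₁ η ξ) := by
  rw [← Finset.sum_product']
  symm
  apply Finset.sum_nbij' (fun p : Conf d n × Conf d n => TEN_mx R₁ p.1 p.2) (fun ζ => (TEN_mx R₁ ζ σ, TEN_mx R₂ ζ σ))
  · rintro ⟨η, ξ⟩ h
    rw [Finset.mem_product, TEN_fo, TEN_fo] at h
    rw [TEN_fo]
    intro x hx
    rw [Finset.mem_union, not_or] at hx
    simp only [TEN_mx, if_neg hx.1]
    exact h.2 x hx.2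
  · intro ζ hζ
    rw [Finset.mem_product, TEN_fo, TEN_fo]
    refine ⟨fun x hx => ?_, fun x hx => ?_⟩
    · simp only [TEN_mx, if_neg hx]
    · simp only [TEN_mx, if_neg hx]
  · rintro ⟨η, ξ⟩ h
    rw [Finset.mem_product, TEN_fo, TEN_fo] at h
    refine Prod.ext ?_ ?_
    · funext x
      by_cases hx : x ∈ R₁
      · simp only [TEN_mx, if_pos hx]
      · simp only [TEN_mx, if_neg hx]
        exact (h.1 x hx).symm
    · funext x
      by_cases hx : x ∈ R₂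
      · have hx1 : x ∉ R₁ := fun h1 => Finset.disjoint_left.1 hdis h1 hx
        simp only [TEN_mx, if_pos hx, if_neg hx1]
      · simp only [TEN_mx, if_neg hx]
        exact (h.2 x hx).symm
  · intro ζ hζ
    rw [TEN_fo] at hζ
    funext x
    by_cases hx : x ∈ R₁
    · simp only [TEN_mx, if_pos hx]
    · by_cases hx2 : x ∈ R₂
      · simp only [TEN_mx, if_neg hx, if_pos hx2]
      · simp only [TEN_mx, if_neg hx, if_neg hx2]
        refine (hζ x ?_).symm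
        rw [Finset.mem_union, not_or]
        exact ⟨hx, hx2⟩
  · rintro ⟨η, ξ⟩ _
    rfl

theorem TEN_sum2 {d n : ℕ} [NeZero n] (R₁ R₂ : Finset (Site d n)) (hdis : Disjoint R₁ R₂) (σ η : Conf d n) (hη : η ∈ fo R₁ σ)
    (F : Conf d n → ℝ) : ∑ ζ ∈ fo R₂ η, F ζ = ∑ ξ ∈ fo R₂ σ, F (TEN_mx R₁ η ξ) := by
  rw [TEN_fo] at hη
  symm
  apply Finset.sum_nbij' (fun ξ : Conf d n => TEN_mx R₁ η ξ) (fun ζ => TEN_mx R₂ ζ σ)
  · intro ξ h
    rw [TEN_fo] at h ⊢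
    intro x hx
    by_cases hx1 : x ∈ R₁
    · simp only [TEN_mx, if_pos hx1]
    · simp only [TEN_mx, if_neg hx1]
      rw [h x hx, hη x hx1]
  · intro ζ _
    rw [TEN_fo]
    intro x hx
    simp only [TEN_mx, if_neg hx]
  · intro ξ h
    rw [TEN_fo] at h
    funext x
    by_cases hx : x ∈ R₂
    · have hx1 : x ∉ R₁ := fun h1 => Finset.disjoint_left.1 hdis h1 hx
      simp only [TEN_mx, if_pos hx, if_neg hx1]
    · simp only [TEN_mx, if_neg hx]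
      exact (h x hx).symm
  · intro ζ hζ
    rw [TEN_fo] at hζ
    funext x
    by_cases hx : x ∈ R₁
    · have hx2 : x ∉ R₂ := fun h1 => Finset.disjoint_left.1 hdis hx h1
      simp only [TEN_mx, if_pos hx]
      exact (hζ x hx2).symm
    · by_cases hx2 : x ∈ R₂
      · simp only [TEN_mx, if_neg hx, if_pos hx2]
      · simp only [TEN_mx, if_neg hx, if_neg hx2]
        rw [hζ x hx2, hη x hx]
  · intro ξ _
    rfl

theorem TEN_brk {d n : ℕ} [NeZero n] (σ : Conf d n) : ((brk σ).card : ℝ) =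
    ∑ e : Edge d n, if σ e.1 ≠ σ (e.1 + ev e.2) then (1 : ℝ) else 0 := by
  unfold brk
  rw [Finset.card_filter]
  push_cast
  rfl

theorem TEN_W {d n : ℕ} [NeZero n] (β : ℝ) (R₁ R₂ : Finset (Site d n)) (hdis : Disjoint R₁ R₂)
    (hnn : ∀ x ∈ R₁, ∀ y ∈ R₂, ¬ nn x y) (σ η ξ : Conf d n) (hη : η ∈ fo R₁ σ) (hξ : ξ ∈ fo R₂ σ) :
    W β (TEN_mx R₁ η ξ) * W β σ = W β η * W β ξ := by
  rw [TEN_fo] at hη hξ
  unfold W
  rw [← Real.exp_add, ← Real.exp_add]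
  congr 1
  rw [← mul_add, ← mul_add, TEN_brk, TEN_brk, TEN_brk, TEN_brk, ← Finset.sum_add_distrib, ← Finset.sum_add_distrib]
  congr 1
  apply Finset.sum_congr rfl
  intro e _
  by_cases h : e.1 ∈ R₁ ∨ e.1 + ev e.2 ∈ R₁
  · -- then neither endpoint is in `R₂`
    have n1 : e.1 ∉ R₂ := by
      intro hx
      rcases h with h | h
      · exact Finset.disjoint_left.1 hdis h hx
      · exact hnn _ h _ hx ⟨e.2, Or.inr rfl⟩
    have n2 : e.1 + ev e.2 ∉ R₂ := by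
      intro hx
      rcases h with h | h
      · exact hnn _ h _ hx ⟨e.2, Or.inl rfl⟩
      · exact Finset.disjoint_left.1 hdis h hx
    have m1 : ∀ x, x ∉ R₂ → TEN_mx R₁ η ξ x = η x := by
      intro x hx
      by_cases hx1 : x ∈ R₁
      · simp only [TEN_mx, if_pos hx1]
      · simp only [TEN_mx, if_neg hx1]
        rw [hξ x hx, hη x hx1]
    rw [m1 _ n1, m1 _ n2, hξ _ n1, hξ _ n2]
  · rw [not_or] at h
    simp only [TEN_mx, if_neg h.1, if_neg h.2]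
    rw [hη _ h.1, hη _ h.2]
    ring

theorem TEN_Wpos {d n : ℕ} [NeZero n] (β : ℝ) (σ : Conf d n) : 0 < W β σ := Real.exp_pos _

theorem TEN_Zpos {d n : ℕ} [NeZero n] (β : ℝ) (R : Finset (Site d n)) (σ : Conf d n) : 0 < ∑ η ∈ fo R σ, W β η := by
  apply Finset.sum_pos (fun _ _ => TEN_Wpos β _)
  refine ⟨σ, ?_⟩
  rw [TEN_fo]
  intro x _
  rfl

theorem TEN : TEN_stmt := by
  intro d n _ β R₁ R₂ hdis hnn f σ
  have hWm : ∀ η ∈ fo R₁ σ, ∀ ξ ∈ fo R₂ σ, W β (TEN_mx R₁ η ξ) = W β η * W β ξ / W β σ := by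
    intro η hη ξ hξ
    rw [eq_div_iff (TEN_Wpos β σ).ne']
    exact TEN_W β R₁ R₂ hdis hnn σ η ξ hη hξ
  have hσ := TEN_Wpos β σ
  set Z₁ := ∑ η ∈ fo R₁ σ, W β η with hZ₁
  set Z₂ := ∑ η ∈ fo R₂ σ, W β η with hZ₂
  have hZ₁p : 0 < Z₁ := TEN_Zpos β R₁ σ
  have hZ₂p : 0 < Z₂ := TEN_Zpos β R₂ σ
  -- left side
  have l1 : ∑ ζ ∈ fo (R₁ ∪ R₂) σ, W β ζ * f ζ =
      (∑ η ∈ fo R₁ σ, W β η * ∑ ξ ∈ fo R₂ σ, W β ξ * f (TEN_mx R₁ η ξ)) / W β σ := by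
    rw [TEN_sum R₁ R₂ hdis, Finset.sum_div]
    apply Finset.sum_congr rfl
    intro η hη
    rw [Finset.mul_sum, Finset.sum_div]
    apply Finset.sum_congr rfl
    intro ξ hξ
    rw [hWm η hη ξ hξ]
    ring
  have l2 : ∑ ζ ∈ fo (R₁ ∪ R₂) σ, W β ζ = (Z₁ * Z₂) / W β σ := by
    rw [TEN_sum R₁ R₂ hdis, hZ₁, hZ₂, Finset.sum_mul_sum, Finset.sum_div]
    apply Finset.sum_congr rfl
    intro η hη
    rw [Finset.sum_div]
    apply Finset.sum_congr rfl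
    intro ξ hξ
    rw [hWm η hη ξ hξ]
  have l3 : ER β (R₁ ∪ R₂) f σ = (∑ η ∈ fo R₁ σ, W β η * ∑ ξ ∈ fo R₂ σ, W β ξ * f (TEN_mx R₁ η ξ)) / (Z₁ * Z₂) := by
    unfold ER
    rw [l1, l2, div_div_div_cancel_right₀ hσ.ne']
  -- right side
  have r1 : ∀ η ∈ fo R₁ σ, ER β R₂ f η = (∑ ξ ∈ fo R₂ σ, W β ξ * f (TEN_mx R₁ η ξ)) / Z₂ := by
    intro η hη
    unfold ER
    rw [TEN_sum2 R₁ R₂ hdis σ η hη, TEN_sum2 R₁ R₂ hdis σ η hη]
    have a1 : ∑ ξ ∈ fo R₂ σ, W β (TEN_mx R₁ η ξ) * f (TEN_mx R₁ η ξ) =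
        (W β η / W β σ) * ∑ ξ ∈ fo R₂ σ, W β ξ * f (TEN_mx R₁ η ξ) := by
      rw [Finset.mul_sum]
      apply Finset.sum_congr rfl
      intro ξ hξ
      rw [hWm η hη ξ hξ]
      ring
    have a2 : ∑ ξ ∈ fo R₂ σ, W β (TEN_mx R₁ η ξ) = (W β η / W β σ) * Z₂ := by
      rw [hZ₂, Finset.mul_sum]
      apply Finset.sum_congr rfl
      intro ξ hξ
      rw [hWm η hη ξ hξ]
      ring
    rw [a1, a2, mul_div_mul_left _ _ (div_pos (TEN_Wpos β η) hσ).ne']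
  have r2 : ER β R₁ (ER β R₂ f) σ = (∑ η ∈ fo R₁ σ, W β η * ((∑ ξ ∈ fo R₂ σ, W β ξ * f (TEN_mx R₁ η ξ)) / Z₂)) / Z₁ := by
    show (∑ η ∈ fo R₁ σ, W β η * ER β R₂ f η) / ∑ η ∈ fo R₁ σ, W β η = _
    rw [← hZ₁]
    congr 1
    apply Finset.sum_congr rfl
    intro η hη
    rw [r1 η hη]
  rw [l3, r2, mul_comm Z₁ Z₂, ← div_div]
  congr 1
  rw [Finset.sum_div]
  apply Finset.sum_congr rfl
  intro η _
  rw [mul_div_assoc]

end CO
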