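import Pool.Agent.helper23.CO.SpecC

open Finset Filter Topology

namespace CO

open CU

section
variable {d n : ℕ} [NeZero n]

theorem POI_fo (R : Finset (Site d n)) (σ η : Conf d n) : η ∈ fo R σ ↔ ∀ x, x ∉ R → η x = σ x := by
  unfold fo
  simp

theorem POI_Z (β : ℝ) (R : Finset (Site d n)) (σ : Conf d n) : 0 < ∑ η ∈ fo R σ, W β η := by
  apply Finset.sum_pos (fun _ _ => Real.exp_pos _)
  refine ⟨σ, ?_⟩
  rw [POI_fo]
  intro x _
  rfl

/-- variance as a double sum -/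
theorem POI_var (hERA : ERA_stmt) (β : ℝ) (R : Finset (Site d n)) (f : Conf d n → ℝ) (τ : Conf d n) :
    ER β R (fun η => (f η - ER β R f η) ^ 2) τ =
      (1 / 2) * ((∑ σ ∈ fo R τ, ∑ σ' ∈ fo R τ, W β σ * W β σ' * (f σ - f σ') ^ 2) / (∑ σ ∈ fo R τ, W β σ) ^ 2) := by
  have hZ := POI_Z β R τ
  set m := ER β R f τ with hm
  have e1 : ER β R (fun η => (f η - ER β R f η) ^ 2) τ = (∑ η ∈ fo R τ, W β η * (f η - m) ^ 2) / ∑ η ∈ fo R τ, W β η := by
    show (∑ η ∈ fo R τ, W β η * (f η - ER β R f η) ^ 2) / ∑ η ∈ fo R τ, W β η = _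
    congr 1
    apply Finset.sum_congr rfl
    intro η hη
    rw [POI_fo] at hη
    rw [(hERA d n β R).2.2.2.1 f η τ hη]
  have e2 : ∑ η ∈ fo R τ, W β η * (f η - m) ^ 2 = (∑ η ∈ fo R τ, W β η * f η ^ 2) - 2 * m * (∑ η ∈ fo R τ, W β η * f η) +
      m ^ 2 * ∑ η ∈ fo R τ, W β η := by
    rw [Finset.mul_sum, Finset.mul_sum, ← Finset.sum_sub_distrib, ← Finset.sum_add_distrib]
    apply Finset.sum_congr rfl
    intro η _
    ring
  have e3 : ∑ σ ∈ fo R τ, ∑ σ' ∈ fo R τ, W β σ * W β σ' * (f σ - f σ') ^ 2 =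
      2 * ((∑ η ∈ fo R τ, W β η) * (∑ η ∈ fo R τ, W β η * f η ^ 2) - (∑ η ∈ fo R τ, W β η * f η) * (∑ η ∈ fo R τ, W β η * f η)) := by
    have h1 : ∀ σ σ' : Conf d n, W β σ * W β σ' * (f σ - f σ') ^ 2 = (W β σ * f σ ^ 2) * W β σ' +
        W β σ * (W β σ' * f σ' ^ 2) - 2 * ((W β σ * f σ) * (W β σ' * f σ')) := by
      intro σ σ'
      ring
    simp only [h1, Finset.sum_sub_distrib, Finset.sum_add_distrib, ← Finset.mul_sum, ← Finset.sum_mul]
    ring
  have e4 : m = (∑ η ∈ fo R τ, W β η * f η) / ∑ η ∈ fo R τ, W β η := rfl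
  rw [e1, e2, e3, e4]
  set Z := ∑ η ∈ fo R τ, W β η with hZd
  field_simp
  ring

/-- `σ'` on `A`, `σ` elsewhere -/
def POI_mx (A : Finset (Site d n)) (σ σ' : Conf d n) : Conf d n := fun y => if y ∈ A then σ' y else σ y

end

theorem POI (hHYB : HYB_stmt) (hERA : ERA_stmt) : POI_stmt := by
  intro d n _ hn β R ρ c hβ hρ hc f τ
  classical
  set A : ℕ → Finset (Site d n) := fun r => R.filter fun y => ρ y < r with hA
  have hAR : ∀ r, A r ⊆ R := fun r => Finset.filter_subset _ _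
  -- insertion
  have hins : ∀ x ∈ R, insert x (A (ρ x)) = A (ρ x + 1) := by
    intro x hx
    ext y
    simp only [hA, Finset.mem_insert, Finset.mem_filter]
    constructor
    · rintro (rfl | ⟨h1, h2⟩)
      · exact ⟨hx, Nat.lt_succ_self _⟩
      · exact ⟨h1, by omega⟩
    · rintro ⟨h1, h2⟩
      rcases Nat.lt_succ_iff_lt_or_eq.1 h2 with h | h
      · exact Or.inr ⟨h1, h⟩
      · exact Or.inl (hρ h1 hx h)
  -- telescoping
  have htel : ∀ σ ∈ fo R τ, ∀ σ' ∈ fo R τ, ∀ r : ℕ,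
      f σ - f (POI_mx (A r) σ σ') = ∑ x ∈ A r, (f (POI_mx (A (ρ x)) σ σ') - f (POI_mx (insert x (A (ρ x))) σ σ')) := by
    intro σ _ σ' _ r
    induction r with
    | zero =>
      have h0 : A 0 = ∅ := by simp [hA]
      rw [h0, Finset.sum_empty]
      have : POI_mx ∅ σ σ' = σ := by
        funext y
        simp [POI_mx]
      rw [this, sub_self]
    | succ r ih =>
      by_cases h : ∃ x ∈ R, ρ x = r
      · obtain ⟨x, hx, rfl⟩ := h
        have hxA : x ∉ A (ρ x) := by simp [hA]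
        rw [← hins x hx, Finset.sum_insert hxA, ← ih]
        ring
      · push Not at h
        have : A (r + 1) = A r := by
          ext y
          simp only [hA, Finset.mem_filter]
          constructor
          · rintro ⟨h1, h2⟩
            exact ⟨h1, by have := h y h1; omega⟩
          · rintro ⟨h1, h2⟩
            exact ⟨h1, by omega⟩
        rw [this, ih]
  obtain ⟨M, hM⟩ : ∃ M : ℕ, A M = R := by
    refine ⟨R.sup ρ + 1, ?_⟩
    simp only [hA]
    apply Finset.filter_true_of_mem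
    intro x hx
    exact Nat.lt_succ_of_le (Finset.le_sup hx)
  have hcs : ∀ σ ∈ fo R τ, ∀ σ' ∈ fo R τ,
      (f σ - f σ') ^ 2 ≤ R.card * ∑ x ∈ R, (f (POI_mx (A (ρ x)) σ σ') - f (POI_mx (insert x (A (ρ x))) σ σ')) ^ 2 := by
    intro σ hσ σ' hσ'
    have h1 := htel σ hσ σ' hσ' M
    rw [hM] at h1
    have h2 : POI_mx R σ σ' = σ' := by
      rw [POI_fo] at hσ hσ'
      funext y
      by_cases hy : y ∈ R
      · simp only [POI_mx, if_pos hy]
      · simp only [POI_mx, if_neg hy]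
        rw [hσ y hy, hσ' y hy]
    rw [h2] at h1
    rw [h1]
    exact sq_sum_le_card_mul_sum_sq
  -- one step
  have hone : ∀ x ∈ R, (∑ σ ∈ fo R τ, ∑ σ' ∈ fo R τ, W β σ * W β σ' *
      (f (POI_mx (A (ρ x)) σ σ') - f (POI_mx (insert x (A (ρ x))) σ σ')) ^ 2) / (∑ σ ∈ fo R τ, W β σ) ^ 2 ≤
      4 * Real.exp (4 * β * c + 4 * d * β) * ER β R (fun η => (f η - Kx β x f η) ^ 2) τ := by
    intro x hx
    refine hHYB d n hn β R (A (ρ x)) x c hβ (hAR _) hx (by simp [hA]) ?_ f τ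
    refine le_trans (le_of_eq ?_) (hc (ρ x + 1))
    congr 1
    apply Finset.filter_congr
    intro e _
    constructor
    · rintro ⟨h1, h2, h3⟩
      refine ⟨h1, h2, ?_⟩
      rw [hins x hx] at h3
      simp only [hA, Finset.mem_filter, h1, h2, true_and] at h3
      exact h3
    · rintro ⟨h1, h2, h3⟩
      refine ⟨h1, h2, ?_⟩
      rw [hins x hx]
      simp only [hA, Finset.mem_filter, h1, h2, true_and]
      exact h3
  rw [POI_var hERA]
  have hZ := POI_Z β R τ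
  have hb : ∑ σ ∈ fo R τ, ∑ σ' ∈ fo R τ, W β σ * W β σ' * (f σ - f σ') ^ 2 ≤
      R.card * ∑ x ∈ R, ∑ σ ∈ fo R τ, ∑ σ' ∈ fo R τ, W β σ * W β σ' *
        (f (POI_mx (A (ρ x)) σ σ') - f (POI_mx (insert x (A (ρ x))) σ σ')) ^ 2 := by
    calc ∑ σ ∈ fo R τ, ∑ σ' ∈ fo R τ, W β σ * W β σ' * (f σ - f σ') ^ 2
        ≤ ∑ σ ∈ fo R τ, ∑ σ' ∈ fo R τ, ∑ x ∈ R, R.card * (W β σ * W β σ' *
          (f (POI_mx (A (ρ x)) σ σ') - f (POI_mx (insert x (A (ρ x))) σ σ')) ^ 2) := by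
          apply Finset.sum_le_sum
          intro σ hσ
          apply Finset.sum_le_sum
          intro σ' hσ'
          have h := mul_le_mul_of_nonneg_left (hcs σ hσ σ' hσ') (mul_pos (Real.exp_pos (-2 * β * ((brk σ).card : ℝ))) (Real.exp_pos (-2 * β * ((brk σ').card : ℝ)))).le
          refine le_trans h (le_of_eq ?_)
          rw [Finset.mul_sum, Finset.mul_sum]
          apply Finset.sum_congr rfl
          intro x _
          show W β σ * W β σ' * _ = _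
          ring
      _ = _ := by
          rw [Finset.mul_sum]
          have h1 : ∀ σ ∈ fo R τ, ∑ σ' ∈ fo R τ, ∑ x ∈ R, R.card * (W β σ * W β σ' *
              (f (POI_mx (A (ρ x)) σ σ') - f (POI_mx (insert x (A (ρ x))) σ σ')) ^ 2) =
              ∑ x ∈ R, ∑ σ' ∈ fo R τ, R.card * (W β σ * W β σ' *
              (f (POI_mx (A (ρ x)) σ σ') - f (POI_mx (insert x (A (ρ x))) σ σ')) ^ 2) :=
            fun σ _ => Finset.sum_comm
          rw [Finset.sum_congr rfl h1, Finset.sum_comm]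
          apply Finset.sum_congr rfl
          intro x _
          rw [Finset.mul_sum]
          apply Finset.sum_congr rfl
          intro σ _
          rw [Finset.mul_sum]
  have hb2 : (∑ σ ∈ fo R τ, ∑ σ' ∈ fo R τ, W β σ * W β σ' * (f σ - f σ') ^ 2) / (∑ σ ∈ fo R τ, W β σ) ^ 2 ≤
      R.card * ∑ x ∈ R, 4 * Real.exp (4 * β * c + 4 * d * β) * ER β R (fun η => (f η - Kx β x f η) ^ 2) τ := by
    calc (∑ σ ∈ fo R τ, ∑ σ' ∈ fo R τ, W β σ * W β σ' * (f σ - f σ') ^ 2) / (∑ σ ∈ fo R τ, W β σ) ^ 2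
        ≤ (R.card * ∑ x ∈ R, ∑ σ ∈ fo R τ, ∑ σ' ∈ fo R τ, W β σ * W β σ' *
        (f (POI_mx (A (ρ x)) σ σ') - f (POI_mx (insert x (A (ρ x))) σ σ')) ^ 2) / (∑ σ ∈ fo R τ, W β σ) ^ 2 :=
          div_le_div_of_nonneg_right hb (by positivity)
      _ = R.card * ∑ x ∈ R, (∑ σ ∈ fo R τ, ∑ σ' ∈ fo R τ, W β σ * W β σ' *
        (f (POI_mx (A (ρ x)) σ σ') - f (POI_mx (insert x (A (ρ x))) σ σ')) ^ 2) / (∑ σ ∈ fo R τ, W β σ) ^ 2 := by
          rw [mul_div_assoc, Finset.sum_div]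
      _ ≤ _ := mul_le_mul_of_nonneg_left (Finset.sum_le_sum hone) (Nat.cast_nonneg _)
  rw [← Finset.mul_sum] at hb2
  calc 1 / 2 * ((∑ σ ∈ fo R τ, ∑ σ' ∈ fo R τ, W β σ * W β σ' * (f σ - f σ') ^ 2) / (∑ σ ∈ fo R τ, W β σ) ^ 2)
      ≤ 1 / 2 * (R.card * (4 * Real.exp (4 * β * c + 4 * d * β) * ∑ x ∈ R, ER β R (fun η => (f η - Kx β x f η) ^ 2) τ)) :=
        mul_le_mul_of_nonneg_left hb2 (by norm_num)
    _ = _ := by ring

end CO
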